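import Pool.Agent.Helper6.OB.Goals

set_option autoImplicit false

namespace Pool.Agent.Helper72.OB

open Pool.Agent.Helper6.CS
open Pool.Agent.Helper6.OB
open Pool.Agent.Helper41.CS (Vx OOW limW len_app get_app_lt get_app_ge app_assoc len_nil nil_app
  app_nil len_sg get_sg over_nil over_app over_sg len_sub get_sub sub_app over_sub sub_eq_self
  sub_sg_self bdd_words code_fun)

set_option synthInstance.maxSize 1000000000

variable {M : Type} [World M]

/-- There are large functions of every length avoiding the types marked in `w`. -/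
def NE (a b ρ : M) (H : Wd M → M) (G : M → Wd M × Wd M → Prop)
    (Φ : Wd M → Wd M × Wd M → M) (w : Wd M) : Prop :=
  ∀ N : M, ∃ D : Wd M, D.len = N ∧ Over ρ D ∧ LamA a b G Φ D ∧
    ∀ i : M, i < w.len → w.get i = 1 → ¬ Vio a b H i D

instance ipNE (a b ρ : M) (H : Wd M → M) (G : M → Wd M × Wd M → Prop)
    (Φ : Wd M → Wd M × Wd M → M) [IFn M H]
    [IP M fun p : M × (Wd M × Wd M) => G p.1 p.2]
    [IFn M fun p : Wd M × (Wd M × Wd M) => Φ p.1 p.2] :
    IP M fun w : Wd M => NE a b ρ H G Φ w := by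
  unfold NE
  have h1 : IP M fun D : Wd M => LamA a b G Φ D := inferInstance
  have h2 : IP M fun p : M × Wd M => Vio a b H p.1 p.2 := inferInstance
  infer_instance

/-- The tree of the large functions avoiding `S`. -/
def TT (a b : M) (H : Wd M → M) (G : M → Wd M × Wd M → Prop)
    (Φ : Wd M → Wd M × Wd M → M) (S : M → M) (D : Wd M) : Prop :=
  LamA a b G Φ D ∧ ∀ i : M, i < D.len → S i = 1 → ¬ Vio a b H i D

instance ipTT (a b : M) (H : Wd M → M) (G : M → Wd M × Wd M → Prop)
    (Φ : Wd M → Wd M × Wd M → M) (S : M → M) [IFn M H] [IFn M S]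
    [IP M fun p : M × (Wd M × Wd M) => G p.1 p.2]
    [IFn M fun p : Wd M × (Wd M × Wd M) => Φ p.1 p.2] :
    IP M fun D : Wd M => TT a b H G Φ S D := by
  unfold TT
  infer_instance

theorem t_PTH : Pool.Agent.Helper6.OB.G_PTH := by
  intro hREC hKON hGRE hLMO hLST hPR M _ a b ρ H G Φ hSt hΦ hρ
  have i1 : IFn M H := hSt.ifn
  have i2 : IP M fun p : M × (Wd M × Wd M) => G p.1 p.2 := hSt.ip
  have i3 : IFn M fun p : Wd M × (Wd M × Wd M) => Φ p.1 p.2 := hΦ.ifn
  obtain ⟨-, -, hL3, hL4⟩ := hLMO M a b H G Φ hSt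
  have hnil : NE a b ρ H G Φ (Wd.nil M) := by
    intro N
    obtain ⟨D, h1, h2, h3⟩ := hPR hLMO hLST M a b ρ H G Φ hSt hΦ hρ N
    refine ⟨D, h1, h2, h3, fun i hi => ?_⟩
    rw [len_nil] at hi
    exact absurd hi (not_lt.2 (World.zero_le' i))
  have hstep : ∀ w, NE a b ρ H G Φ w → NE a b ρ H G Φ (w ++ Wd.sg 0) := by
    intro w hw N
    obtain ⟨D, h1, h2, h3, h4⟩ := hw N
    refine ⟨D, h1, h2, h3, fun i hi hg => ?_⟩
    rw [len_app, len_sg, World.lt_succ] at hi
    rcases hi.lt_or_eq with h | h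
    · rw [get_app_lt h] at hg
      exact h4 i h hg
    · exfalso
      subst h
      have h5 := get_app_ge w (Wd.sg (0 : M)) 0
      rw [add_zero] at h5
      rw [h5, Wd.get_sg_zero] at hg
      exact zero_ne_one hg
  obtain ⟨S, iS, hS1, hS2⟩ := hGRE hREC M (fun w => NE a b ρ H G Φ w) inferInstance hnil hstep
  have := iS
  obtain ⟨g₀, ig, hbd, hT⟩ := hKON hREC M ρ (fun D => TT a b H G Φ S D) inferInstance
    (by
      rintro D z ⟨h1, h2⟩
      refine ⟨hL3 D z h1, fun i hi hs hv => ?_⟩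
      refine h2 i ?_ hs (hL4 i D z hv)
      rw [len_app]
      exact lt_of_lt_of_le hi (le_add_of_nonneg_right (World.zero_le' _)))
    (by
      intro N
      obtain ⟨D, h1, h2, h3, h4⟩ := hS1 N N
      refine ⟨D, h1, h2, h3, fun i hi hs => ?_⟩
      rw [h1] at hi
      refine h4 i (by rwa [Wd.len_of]) ?_
      rw [Wd.get_of_lt _ _ hi]
      exact hs)
  have := ig
  refine ⟨g₀, S, ig, iS, hbd, fun N => (hT N).1, ?_, ?_⟩
  · intro i N hs hv
    obtain ⟨z, hz⟩ := of_append g₀ (N := N) (N' := N + (i + 1))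
      (le_add_of_nonneg_right (World.zero_le' _))
    have h1 := (hT (N + (i + 1))).2 i (by
      rw [Wd.len_of]
      calc i < i + 1 := (World.lt_succ _ _).2 le_rfl
        _ ≤ N + (i + 1) := le_add_of_nonneg_left (World.zero_le' _)) hs
    rw [hz] at h1
    exact h1 (hL4 i _ z hv)
  · intro j hj
    have h1 := hS2 j hj
    unfold NE at h1
    rw [not_forall] at h1
    obtain ⟨N, hN⟩ := h1
    refine ⟨N, fun D h2 h3 h4 h5 => ?_⟩
    by_contra hv
    apply hN
    refine ⟨D, h2, h3, h4, fun i hi hg => ?_⟩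
    rw [len_app, len_sg, Wd.len_of, World.lt_succ] at hi
    rcases hi.lt_or_eq with h | h
    · rw [get_app_lt (by rwa [Wd.len_of]), Wd.get_of_lt _ _ h] at hg
      exact h5 i h hg
    · rw [h]
      exact hv

end Pool.Agent.Helper72.OB
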